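import Pool.Agent.helper50.NPT.Spec3

/-!
# Project NPT (MP_8f32d0_ag): row COO

A Laurent expansion at `P₀` for which a function `x`, regular outside `P₀`, is `s^(-n)`, `n` prime to the characteristic.
-/

set_option autoImplicit false

namespace NPT

open scoped Classical
open AN
open Pool.Agent.helper53.AU

noncomputable section

theorem COO (hFA : FA_stmt) (hFC0 : FC0_stmt) (hFCR : FCR_stmt) : COO_stmt := by
  intro p _ k F _ _ _ _ _ hF P₀
  obtain ⟨ι, hι⟩ := hFA k F hF P₀
  obtain ⟨C, hC⟩ := aQR5 k F hF P₀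
  have hp : 0 < p := (Fact.out : p.Prime).pos
  set n : ℕ := p * (C + 1) + 1 with hn
  have hn1 : C + 1 ≤ p * (C + 1) := Nat.le_mul_of_pos_left _ hp
  have hn0 : 0 < n := by omega
  have hnk : (n : k) ≠ 0 := by
    rw [hn]
    push_cast
    rw [CharP.cast_eq_zero k p]
    simp
  obtain ⟨y, hy, hy0, hord⟩ := hC n (by omega)
  have h1 := hι.mem y hy0
  have h2 := hι.ne y hy0
  rw [hord] at h1 h2
  obtain ⟨σ, hσ1, hσ2, hσ3⟩ := hFCR k n hn0 hnk (ι y) h1 h2
  obtain ⟨S, hS1, hS2, hS3, hS4, hS5⟩ := hFC0 k σ hσ1 hσ2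
  set ι' : F →+* LS k := (S.symm : LS k →+* LS k).comp ι with hι'
  have hSι : ∀ x, S (ι' x) = ι x := fun x => by
    rw [hι']; exact S.apply_symm_apply (ι x)
  have hL : Lau P₀ ι' := by
    refine ⟨fun c => ?_, fun x hx => ?_, fun x hx hc => ?_⟩
    · have : ι' (algebraMap k F c) = S.symm (ι (algebraMap k F c)) := rfl
      rw [this, hι.const]
      exact (RingEquiv.symm_apply_eq S).mpr (hS1 c).symm
    · rw [hS3, hSι]; exact hι.mem x hx
    · have h3 : ι' x ∈ GE k (P₀.ord x + 1) := by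
        intro m hm
        rcases lt_or_eq_of_le (Int.lt_add_one_iff.mp hm) with h | h
        · have h4 : ι' x ∈ GE k (P₀.ord x) := by
            rw [hS3, hSι]; exact hι.mem x hx
          exact h4 m h
        · rw [h]; exact hc
      rw [hS3, hSι] at h3
      exact hι.ne x hx (h3 _ (by omega))
  have hmonopow : ∀ m : ℕ, (mono 1 (1 : k)) ^ m = mono (m : ℤ) 1 := by
    intro m
    induction m with
    | zero => rw [pow_zero, Nat.cast_zero, ← C_eq_mono, map_one]
    | succ m ih =>
      rw [pow_succ, ih, mono_mul_mono, mul_one]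
      push_cast
      rfl
  have hy' : ι' y = mono (-(n : ℤ)) 1 := by
    apply S.injective
    rw [hSι]
    have h3 : S (mono (-(n : ℤ)) 1) * σ ^ n = 1 := by
      rw [← hS2, ← map_pow, ← map_mul, hmonopow, mono_mul_mono, mul_one, neg_add_cancel,
        ← C_eq_mono, map_one, map_one]
    have h4 : σ ^ n ≠ 0 := fun h => by rw [h, mul_zero] at h3; exact zero_ne_one h3
    have h5 : ι y * σ ^ n = 1 := by rw [mul_comm]; exact hσ3
    exact mul_right_cancel₀ h4 (h5.trans h3.symm)
  exact ⟨ι', n, y, hL, hn0, hnk, hy, hy'⟩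

end

end NPT
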